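import Mathlib
import Pool.Agent.Helper18.EW.Goals
import Pool.Agent.Helper63.Hw.H1

/-!
# Project EW, packet G8: deaths of the special points
-/

set_option autoImplicit false

namespace Pool.Agent.Helper56.EW

open Finset
open Pool.Agent.Helper18.EW
open Pool.Agent.Helper43.Hw (T na va lz Play aa ac sc oo sk U Dd Sd Pn nx bb np)

/-- what an old point which is alive gives -/
theorem dd_eq {μ R : ℕ} {κ x : ℕ → ℕ} {y : ℕ} (hμ : 1 ≤ μ) (hR : μ + 2 ≤ R)
    (hplay : Play μ R 1 κ x) (hy : y < R) (hκ : κ y = 1)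
    (halive : R - 1 - μ < ac R κ x 0 + (R - 1 - y)) :
    Dd μ R κ x y = T (R - 1 - μ - ac R κ x 0) := by
  have h1 := (Pool.Agent.Helper43.Hw.PkH1.goalH1 μ R 1 κ x hμ hR hplay).2.2.2.2.2.1 y hy 0
    (by omega)
  have h2 : 0 < va μ R κ x 0 y := h1.2.2.2.2 (by omega)
  unfold Dd
  rw [hκ, Finset.filter_eq_self.2 (fun c hc => by
    have hc0 : c = 0 := by simpa using hc
    rw [hc0]
    exact h2), Finset.sum_range_one]

theorem le_gD {μ R K τ s E d y : ℕ} {e P : ℕ → ℕ} (h1 : GoalG1) (hμ : 1 ≤ μ)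
    (hG : Grp μ R K τ s E e P) (hsy : s ≤ y) (hy : y < R) (S : Finset ℕ) (hS : S ⊆ range K)
    (hSd : ∀ i ∈ S, ac R (gk s e P i) (gx μ τ s e P i) 0 + d ≤ R - 1 - μ ∧
      R - 1 - μ < ac R (gk s e P i) (gx μ τ s e P i) 0 + (R - 1 - y)) :
    S.card * T d ≤ gD μ R K τ s e P y := by
  unfold gD
  have hJs := hG.Js
  have hsR := hG.sR
  have htJ := hG.tJ
  have hR : μ + 2 ≤ R := by
    have := hG.t1
    omega
  calc S.card * T d = ∑ _i ∈ S, T d := by rw [Finset.sum_const, smul_eq_mul]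
    _ ≤ ∑ i ∈ S, Dd μ R (gk s e P i) (gx μ τ s e P i) y := by
        refine Finset.sum_le_sum fun i hi => ?_
        obtain ⟨ha, hb⟩ := hSd i hi
        have hκ : gk s e P i y = 1 := by
          unfold gk
          rw [if_neg]
          unfold gs
          split_ifs <;> omega
        rw [dd_eq hμ hR (h1 μ R K τ s E e P hμ hG i (Finset.mem_range.1 (hS hi))).1 hy hκ hb]
        exact Pool.Agent.Helper43.Hw.T_mono (by omega)
    _ ≤ ∑ i ∈ range K, Dd μ R (gk s e P i) (gx μ τ s e P i) y :=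
        Finset.sum_le_sum_of_subset hS

theorem exists_k (v w : ℕ) : ∀ q : ℕ, v < w → w ≤ 2 ^ q * v →
    ∃ k < q, 2 ^ k * v < w ∧ w ≤ 2 ^ (k + 1) * v := by
  intro q
  induction q with
  | zero =>
    intro h1 h2
    omega
  | succ q ih =>
    intro h1 h2
    by_cases h : w ≤ 2 ^ q * v
    · obtain ⟨k, hk, h3⟩ := ih h1 h
      exact ⟨k, by omega, h3⟩
    · exact ⟨q, by omega, by omega, h2⟩

/-- packet G8 -/
theorem goalG8 (h1 : GoalG1) : GoalG8 := by
  intro μ R b q τ s E v l y e P hμ hv hb hG hJ1 hJ2 hl hP hbat hsy hy hvw hw4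
  have hJs := hG.Js
  have hsR := hG.sR
  have htJ := hG.tJ
  have hts := hG.ts
  have hpt := h1 μ R (b * (q + 1)) τ s E e P hμ hG
  by_cases hcase : R - 1 - y ≤ 2 ^ q * v
  · obtain ⟨k, hkq, hk1, hk2⟩ := exists_k v (R - 1 - y) q hvw hcase
    have hpow : 2 * (2 ^ k * v) ≤ 2 ^ q * v := by
      have h2 : 2 ^ (k + 1) ≤ 2 ^ q := Nat.pow_le_pow_right (by norm_num) (by omega)
      calc 2 * (2 ^ k * v) = 2 ^ (k + 1) * v := by ring
        _ ≤ 2 ^ q * v := Nat.mul_le_mul_right v h2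
    have hj : q - (q - k) = k := by omega
    have hS : Ico ((q - k) * b) ((q - k + 1) * b) ⊆ range (b * (q + 1)) := by
      intro i hi
      rw [Finset.mem_Ico] at hi
      rw [Finset.mem_range]
      calc i < (q - k + 1) * b := hi.2
        _ ≤ (q + 1) * b := Nat.mul_le_mul_right b (by omega)
        _ = b * (q + 1) := Nat.mul_comm _ _
    have hcard : (Ico ((q - k) * b) ((q - k + 1) * b)).card = b := by
      rw [Nat.card_Ico, Nat.add_mul, Nat.one_mul, Nat.add_sub_cancel_left]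
    have hmain := le_gD (d := 2 ^ k * v) h1 hμ hG hsy hy _ hS (fun i hi => by
      have hiK := Finset.mem_range.1 (hS hi)
      obtain ⟨-, ⟨ha1, ha2, ha3⟩, -⟩ := hpt i hiK
      rw [Finset.mem_Ico] at hi
      have hb' := hbat (q - k) (by omega) (by omega) i hi.1 hi.2
      rw [hj] at hb'
      constructor
      · have h3 := (ha3 (R - 1 - μ - 2 ^ k * v) (by omega) (by omega)).2
          ((hb' _ (by omega) (by omega)).2 (by omega))
        omega
      · have h3 := (hb' _ ha1 (by omega)).1 ((ha3 _ ha1 (by omega)).1 le_rfl)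
        omega)
    rw [hcard] at hmain
    have hT := Pool.Agent.Helper43.Hw.two_T (2 ^ k * v)
    have hk2' : R - 1 - y ≤ 2 * (2 ^ k * v) := by
      calc R - 1 - y ≤ 2 ^ (k + 1) * v := hk2
        _ = 2 * (2 ^ k * v) := by ring
    have h4 : (R - 1 - y) ^ 2 ≤ 128 * T (2 ^ k * v) := by
      calc (R - 1 - y) ^ 2 ≤ (2 * (2 ^ k * v)) ^ 2 := Nat.pow_le_pow_left hk2' 2
        _ ≤ 128 * T (2 ^ k * v) := by nlinarith
    calc b * (R - 1 - y) ^ 2 ≤ b * (128 * T (2 ^ k * v)) := Nat.mul_le_mul_left b h4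
      _ = 128 * (b * T (2 ^ k * v)) := by ring
      _ ≤ 128 * gD μ R (b * (q + 1)) τ s e P y := Nat.mul_le_mul_left _ hmain
  · have hS : range b ⊆ range (b * (q + 1)) := by
      intro i hi
      rw [Finset.mem_range] at hi ⊢
      calc i < b * 1 := by omega
        _ ≤ b * (q + 1) := Nat.mul_le_mul_left b (by omega)
    have hmain := le_gD (d := 2 ^ q * v - l - 1) h1 hμ hG hsy hy _ hS (fun i hi => by
      have hiK := Finset.mem_range.1 (hS hi)
      obtain ⟨-, ⟨ha1, ha2, ha3⟩, -⟩ := hpt i hiK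
      rw [Finset.mem_range] at hi
      have h3 := (ha3 (τ + 1) (by omega) (by omega)).2 (hP i hi)
      constructor <;> omega)
    rw [Finset.card_range] at hmain
    have hT := Pool.Agent.Helper43.Hw.two_T (2 ^ q * v - l - 1)
    have h5 : R - 1 - y ≤ 8 * (2 ^ q * v - l - 1) := by omega
    have h4 : (R - 1 - y) ^ 2 ≤ 128 * T (2 ^ q * v - l - 1) := by
      calc (R - 1 - y) ^ 2 ≤ (8 * (2 ^ q * v - l - 1)) ^ 2 := Nat.pow_le_pow_left h5 2
        _ ≤ 128 * T (2 ^ q * v - l - 1) := by nlinarith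
    calc b * (R - 1 - y) ^ 2 ≤ b * (128 * T (2 ^ q * v - l - 1)) := Nat.mul_le_mul_left b h4
      _ = 128 * (b * T (2 ^ q * v - l - 1)) := by ring
      _ ≤ 128 * gD μ R (b * (q + 1)) τ s e P y := Nat.mul_le_mul_left _ hmain

end Pool.Agent.Helper56.EW
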